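import Pool.Agent.H70.AB.W75b.Data

/-!
# Anchors and witnesses W75b
-/

namespace Pool.Agent.H70.AB.W75b

open Pool.Agent.H70.AB

/-- anchors -/
def anc0 : List (ℕ × ℕ × List ℕ) :=
  List.cons (nat_lit 150, nat_lit 116, List.cons (nat_lit 6690) <| List.cons (nat_lit 10673) <| List.nil) <|
  List.cons (nat_lit 301, nat_lit 112, List.cons (nat_lit 5546) <| List.cons (nat_lit 6521) <| List.nil) <|
  List.cons (nat_lit 452, nat_lit 108, List.cons (nat_lit 3505) <| List.cons (nat_lit 7297) <| List.nil) <|
  List.cons (nat_lit 603, nat_lit 104, List.cons (nat_lit 12858) <| List.cons (nat_lit 5600) <| List.nil) <|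
  List.cons (nat_lit 754, nat_lit 100, List.cons (nat_lit 9969) <| List.cons (nat_lit 12040) <| List.nil) <|
  List.cons (nat_lit 905, nat_lit 96, List.cons (nat_lit 6841) <| List.cons (nat_lit 1865) <| List.nil) <|
  List.cons (nat_lit 1056, nat_lit 92, List.cons (nat_lit 7441) <| List.cons (nat_lit 10417) <| List.nil) <|
  List.cons (nat_lit 1207, nat_lit 87, List.cons (nat_lit 13162) <| List.cons (nat_lit 8200) <| List.nil) <|
  List.cons (nat_lit 1358, nat_lit 83, List.cons (nat_lit 6562) <| List.cons (nat_lit 9024) <| List.nil) <|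
  List.cons (nat_lit 1509, nat_lit 79, List.cons (nat_lit 6745) <| List.cons (nat_lit 11033) <| List.nil) <|
  List.cons (nat_lit 1660, nat_lit 75, List.cons (nat_lit 4402) <| List.cons (nat_lit 13041) <| List.nil) <|
  List.cons (nat_lit 1811, nat_lit 71, List.cons (nat_lit 3338) <| List.cons (nat_lit 10104) <| List.nil) <|
  List.cons (nat_lit 1962, nat_lit 67, List.cons (nat_lit 2130) <| List.cons (nat_lit 6368) <| List.nil) <|
  List.cons (nat_lit 2113, nat_lit 63, List.cons (nat_lit 922) <| List.cons (nat_lit 8569) <| List.nil) <|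
  List.cons (nat_lit 2264, nat_lit 59, List.cons (nat_lit 9841) <| List.cons (nat_lit 6161) <| List.nil) <|
  List.cons (nat_lit 2415, nat_lit 55, List.cons (nat_lit 3498) <| List.cons (nat_lit 1496) <| List.nil) <|
  List.cons (nat_lit 2566, nat_lit 51, List.cons (nat_lit 2641) <| List.cons (nat_lit 8856) <| List.nil) <|
  List.cons (nat_lit 2717, nat_lit 47, List.cons (nat_lit 1082) <| List.cons (nat_lit 1520) <| List.nil) <|
  List.cons (nat_lit 2868, nat_lit 43, List.cons (nat_lit 4257) <| List.cons (nat_lit 10176) <| List.nil) <|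
  List.cons (nat_lit 3019, nat_lit 38, List.cons (nat_lit 11793) <| List.cons (nat_lit 7817) <| List.nil) <|
  List.cons (nat_lit 3170, nat_lit 34, List.cons (nat_lit 4801) <| List.cons (nat_lit 10401) <| List.nil) <|
  List.cons (nat_lit 3321, nat_lit 30, List.cons (nat_lit 11881) <| List.cons (nat_lit 8897) <| List.nil) <|
  List.cons (nat_lit 3472, nat_lit 26, List.cons (nat_lit 3634) <| List.cons (nat_lit 8512) <| List.nil) <|
  List.cons (nat_lit 3623, nat_lit 22, List.cons (nat_lit 2426) <| List.cons (nat_lit 4592) <| List.nil) <|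
  List.cons (nat_lit 3774, nat_lit 18, List.cons (nat_lit 6825) <| List.cons (nat_lit 312) <| List.nil) <|
  List.cons (nat_lit 3925, nat_lit 14, List.cons (nat_lit 10) <| List.cons (nat_lit 2472) <| List.nil) <|
  List.cons (nat_lit 4076, nat_lit 10, List.cons (nat_lit 12353) <| List.cons (nat_lit 1385) <| List.nil) <|
  List.cons (nat_lit 4227, nat_lit 6, List.cons (nat_lit 12601) <| List.cons (nat_lit 545) <| List.nil) <|
  List.cons (nat_lit 4378, nat_lit 2, List.cons (nat_lit 9209) <| List.cons (nat_lit 73) <| List.cons (nat_lit 8584) <| List.nil) <|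
  List.cons (nat_lit 4461, nat_lit 0, List.cons (nat_lit 3329) <| List.cons (nat_lit 10161) <| List.nil) <|
  []

/-- witnesses -/
def wit : List ℕ :=
  List.cons (nat_lit 1) <| List.cons (nat_lit 2) <| List.cons (nat_lit 4) <| List.cons (nat_lit 5) <| List.cons (nat_lit 8) <| List.cons (nat_lit 9) <| List.cons (nat_lit 11) <| List.cons (nat_lit 14) <| List.cons (nat_lit 15) <| List.cons (nat_lit 16) <| List.cons (nat_lit 23) <| List.cons (nat_lit 33) <| List.cons (nat_lit 41) <| List.cons (nat_lit 43) <| List.cons (nat_lit 60) <| List.cons (nat_lit 62) <| List.cons (nat_lit 70) <| List.cons (nat_lit 294) <| List.nil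

theorem num1 : A.numOK = true := by decide +kernel

theorem num2 : A.numOK2 (nat_lit 450) (nat_lit 1800) (nat_lit 120) = true := by decide +kernel

theorem num3 : A.numOK3 (nat_lit 8541) (nat_lit 1) (nat_lit 294) = true := by decide +kernel

theorem ancOK : A.ancs (nat_lit 450) (nat_lit 1800) (nat_lit 4462) anc0 (nat_lit 0) = true := by decide +kernel

theorem devOK : A.devchk (nat_lit 1800) (nat_lit 120) = true := by decide +kernel

theorem lea1 : A.lea (nat_lit 1) (nat_lit 1) (nat_lit 0) wit = true := by decide +kernel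

theorem lea2 : A.lea (nat_lit 1) (nat_lit 8578) (nat_lit 0) wit = true := by decide +kernel

theorem bndOK : bndW (nat_lit 294) wit = true := by decide +kernel

theorem oneA : A.one WA (nat_lit 36) = true := by decide +kernel

/-- exceptional positions -/
def VM : ℕ := Nat.pow (nat_lit 2) (nat_lit 4424)

theorem perC : A.perC (nat_lit 4415) VM = true := by decide +kernel

end Pool.Agent.H70.AB.W75b
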