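import Pool.Agent.H70.AB.W75b.Data

/-!
# Direct checks W75b, part 0
-/

namespace Pool.Agent.H70.AB.W75b

open Pool.Agent.H70.AB

theorem dir0 : A.chkR (nat_lit 1) (nat_lit 400) = true := by decide +kernel

theorem dir1 : A.chkR (nat_lit 401) (nat_lit 49) = true := by decide +kernel


end Pool.Agent.H70.AB.W75b
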