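import Pool.Agent.H70.AB.G.Sound
import Pool.Agent.H70.AB.W75b.Cert
import Pool.Agent.H70.AB.W75b.Dir0

/-!
# Conclusion W75b
-/

namespace Pool.Agent.H70.AB.W75b

open Pool.Agent.H70.AB

theorem dirAll : ∀ m, 0 < m → m < 450 → A.chk m = true := by
  intro m h1 h2
  by_cases h : m < 401
  · exact G.chkR_sound A 1 400 dir0 m (by omega) (by omega)
  push Not at h
  exact G.chkR_sound A 401 49 dir1 m (by omega) (by omega)

theorem ok : A.OK := G.numOK_sound num1

theorem fin1 : G.Fin1 A.σ 10 4 37 4425 4425 450 1800 :=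
  ok.fin1 num2 dirAll ancOK devOK

theorem finB : G.FinB A.σ 10 4 37 4425 8541 1 1 0 :=
  ok.finB num3 bndOK (by decide) lea1 lea2

end Pool.Agent.H70.AB.W75b
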